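import Mathlib

/-!
# MP_bba144_nt: weighted sums of squares of generalized trinomial coefficients (Q1 and Q2, both true)

With `u = b - 2c`, `v = b + 2c`, `T_j = T_j(b, c^2)` the sum has the closed form
`S_n = n^2 (T_n - v T_{n-1})^2 / (2c) + n v T_n T_{n-1} / b`.
-/

set_option autoImplicit false

namespace Pool.Agent.Results.MP_bba144_nt.Full

open Finset

/-- the coefficient `T_m(b,c)` of `x ^ m` in `(x^2 + b x + c) ^ m`, given by its explicit formula
`∑_{0 ≤ j ≤ m/2} C(m,2j) C(2j,j) b^(m-2j) c^j` -/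
def T (b c : ℤ) (m : ℕ) : ℤ :=
  ∑ j ∈ range (m / 2 + 1), ((m.choose (2 * j) : ℤ) * ((2 * j).choose j : ℤ)) * b ^ (m - 2 * j) * c ^ j

/-- the sum of Q1 -/
def S (b c : ℤ) (n : ℕ) : ℤ :=
  ∑ j ∈ range n, (8 * c * j + 4 * c + b) * T b (c ^ 2) j ^ 2 * (b - 2 * c) ^ (2 * (n - 1 - j))

/-- the weights `C(m,2j) C(2j,j)` -/
def w (m j : ℕ) : ℤ := (m.choose (2 * j) : ℤ) * ((2 * j).choose j : ℤ)

lemma w_zero (m : ℕ) : w m 0 = 1 := by simp [w]

lemma w_eq_zero {m j : ℕ} (h : m < 2 * j) : w m j = 0 := by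
  simp [w, Nat.choose_eq_zero_of_lt h]

lemma T_eq (b c : ℤ) (m N : ℕ) (hN : m / 2 + 1 ≤ N) :
    T b c m = ∑ j ∈ range N, w m j * b ^ (m - 2 * j) * c ^ j := by
  unfold T
  apply sum_subset (range_mono hN)
  intro j _ hj
  rw [mem_range] at hj
  have : m < 2 * j := by omega
  change w m j * _ * _ = 0
  rw [w_eq_zero this]
  simp

lemma w_rec (m j : ℕ) : ((m : ℤ) + 2) * w (m + 2) (j + 1) + (m + 1) * w m (j + 1) =
    (2 * m + 3) * w (m + 1) (j + 1) + 4 * (m + 1) * w m j := by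
  unfold w
  have h1 : (m + 1).choose (2 * (j + 1)) = m.choose (2 * j + 1) + m.choose (2 * (j + 1)) := by
    have : 2 * (j + 1) = (2 * j + 1) + 1 := by ring
    rw [this, Nat.choose_succ_succ]
  have h2 : (m + 2).choose (2 * (j + 1)) =
      m.choose (2 * j) + 2 * m.choose (2 * j + 1) + m.choose (2 * (j + 1)) := by
    have e : 2 * (j + 1) = (2 * j + 1) + 1 := by ring
    rw [e, Nat.choose_succ_succ, Nat.choose_succ_succ m (2 * j), Nat.choose_succ_succ m (2 * j + 1)]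
    ring
  have h3 : (2 * j + 1 : ℤ) * (m.choose (2 * j + 1) : ℤ) =
      ((m : ℤ) - 2 * j) * (m.choose (2 * j) : ℤ) := by
    rcases le_or_gt (2 * j) m with h | h
    · have := Nat.choose_succ_right_eq m (2 * j)
      have h4 : ((m.choose (2 * j + 1) * (2 * j + 1) : ℕ) : ℤ) =
          ((m.choose (2 * j) * (m - 2 * j) : ℕ) : ℤ) := by exact_mod_cast this
      push_cast [Nat.cast_sub h] at h4
      linarith
    · rw [Nat.choose_eq_zero_of_lt h, Nat.choose_eq_zero_of_lt (by omega)]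
      simp
  have h4 : ((j : ℤ) + 1) * ((2 * (j + 1)).choose (j + 1) : ℤ) =
      2 * (2 * j + 1) * ((2 * j).choose j : ℤ) := by
    have := Nat.succ_mul_centralBinom_succ j
    simp only [Nat.centralBinom] at this
    have h5 : (((j + 1) * (2 * (j + 1)).choose (j + 1) : ℕ) : ℤ) =
        ((2 * (2 * j + 1) * (2 * j).choose j : ℕ) : ℤ) := by exact_mod_cast this
    push_cast at h5
    linarith
  have h6 : ((2 * j : ℤ) + 1) ≠ 0 := by positivity
  apply mul_left_cancel₀ h6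
  rw [h1, h2]
  push_cast
  linear_combination ((2 * (j + 1)).choose (j + 1) : ℤ) * h3 +
    2 * (m.choose (2 * j) : ℤ) * (m + 1) * h4

/-- the three term recurrence -/
lemma T_rec (b c : ℤ) (m : ℕ) : ((m : ℤ) + 2) * T b c (m + 2) =
    (2 * m + 3) * b * T b c (m + 1) - (m + 1) * (b ^ 2 - 4 * c) * T b c m := by
  rw [T_eq b c (m + 2) (m + 4) (by omega), T_eq b c (m + 1) (m + 4) (by omega)]
  have h0 : T b c m = ∑ j ∈ range (m + 3), w m j * b ^ (m - 2 * j) * c ^ j :=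
    T_eq b c m (m + 3) (by omega)
  have h0' : T b c m = ∑ j ∈ range (m + 4), w m j * b ^ (m - 2 * j) * c ^ j :=
    T_eq b c m (m + 4) (by omega)
  have e1 : ((m : ℤ) + 1) * (b ^ 2 - 4 * c) * T b c m =
      (m + 1) * b ^ 2 * T b c m - 4 * (m + 1) * c * T b c m := by ring
  rw [e1]
  nth_rewrite 1 [h0']
  rw [h0]
  rw [sum_range_succ' _ (m + 3), sum_range_succ' _ (m + 3), sum_range_succ' _ (m + 3)]
  simp only [w_zero, mul_zero, Nat.sub_zero, pow_zero, mul_one, one_mul]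
  have key : ∀ j ∈ range (m + 3),
      ((m : ℤ) + 2) * (w (m + 2) (j + 1) * b ^ (m + 2 - 2 * (j + 1)) * c ^ (j + 1)) =
      (2 * m + 3) * b * (w (m + 1) (j + 1) * b ^ (m + 1 - 2 * (j + 1)) * c ^ (j + 1)) -
      ((m + 1) * b ^ 2 * (w m (j + 1) * b ^ (m - 2 * (j + 1)) * c ^ (j + 1)) -
        4 * (m + 1) * c * (w m j * b ^ (m - 2 * j) * c ^ j)) := by
    intro j _
    have hexp : m + 2 - 2 * (j + 1) = m - 2 * j := by omega
    rw [hexp]
    have hA : b * (w (m + 1) (j + 1) * b ^ (m + 1 - 2 * (j + 1))) =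
        w (m + 1) (j + 1) * b ^ (m - 2 * j) := by
      rcases le_or_gt (2 * (j + 1)) (m + 1) with h | h
      · have : m - 2 * j = (m + 1 - 2 * (j + 1)) + 1 := by omega
        rw [this, pow_succ]
        ring
      · rw [w_eq_zero h]
        ring
    have hB : b ^ 2 * (w m (j + 1) * b ^ (m - 2 * (j + 1))) =
        w m (j + 1) * b ^ (m - 2 * j) := by
      rcases le_or_gt (2 * (j + 1)) m with h | h
      · have : m - 2 * j = (m - 2 * (j + 1)) + 2 := by omega
        rw [this, pow_add]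
        ring
      · rw [w_eq_zero h]
        ring
    have hr := w_rec m j
    linear_combination b ^ (m - 2 * j) * c ^ (j + 1) * hr - (2 * m + 3) * c ^ (j + 1) * hA +
      (m + 1) * c ^ (j + 1) * hB
  rw [mul_add, mul_add, mul_add, mul_sum, mul_sum, mul_sum, mul_sum, sum_congr rfl key,
    sum_sub_distrib, sum_sub_distrib]
  ring

lemma T_zero (b c : ℤ) : T b c 0 = 1 := by simp [T]

lemma T_one (b c : ℤ) : T b c 1 = b := by simp [T]

lemma S_one (b c : ℤ) : S b c 1 = 4 * c + b := by simp [S, T_zero]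

lemma S_succ (b c : ℤ) (n : ℕ) : S b c (n + 1) =
    (b - 2 * c) ^ 2 * S b c n + (8 * c * n + 4 * c + b) * T b (c ^ 2) n ^ 2 := by
  unfold S
  rw [sum_range_succ, mul_sum]
  congr 1
  · apply sum_congr rfl
    intro j hj
    rw [mem_range] at hj
    have : 2 * (n + 1 - 1 - j) = 2 * (n - 1 - j) + 2 := by omega
    rw [this, pow_add]
    ring
  · have : 2 * (n + 1 - 1 - n) = 0 := by omega
    rw [this, pow_zero, mul_one]

/-- the closed form -/
lemma closed (b c : ℤ) (m : ℕ) : 2 * b * c * S b c (m + 1) =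
    b * (m + 1) ^ 2 * (T b (c ^ 2) (m + 1) - (b + 2 * c) * T b (c ^ 2) m) ^ 2 +
    2 * c * (m + 1) * (b + 2 * c) * (T b (c ^ 2) (m + 1) * T b (c ^ 2) m) := by
  induction m with
  | zero =>
    rw [S_one, T_one, T_zero]
    push_cast
    ring
  | succ m ih =>
    have hr := T_rec b (c ^ 2) m
    rw [S_succ b c (m + 1)]
    push_cast at ih hr ⊢
    set A := T b (c ^ 2) m
    set B := T b (c ^ 2) (m + 1)
    set C := T b (c ^ 2) (m + 1 + 1)
    have hr' : ((m : ℤ) + 2) * C = (2 * m + 3) * b * B - (m + 1) * (b ^ 2 - 4 * c ^ 2) * A := hr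
    have e1 : b * ((m : ℤ) + 1 + 1) ^ 2 * (C - (b + 2 * c) * B) ^ 2 =
        b * (((m : ℤ) + 2) * C - (m + 2) * (b + 2 * c) * B) ^ 2 := by ring
    have e2 : 2 * c * ((m : ℤ) + 1 + 1) * (b + 2 * c) * (C * B) =
        2 * c * (b + 2 * c) * (((m : ℤ) + 2) * C) * B := by ring
    rw [e1, e2, hr']
    linear_combination (b - 2 * c) ^ 2 * ih

lemma two_dvd_central {j : ℕ} (hj : 1 ≤ j) : (2 : ℤ) ∣ ((2 * j).choose j : ℤ) := by
  have := Nat.two_dvd_centralBinom_of_one_le hj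
  rw [Nat.centralBinom] at this
  exact_mod_cast this

lemma T_mod (b c : ℤ) (m : ℕ) : (2 * c) ∣ T b (c ^ 2) m - b ^ m := by
  rw [T_eq b (c ^ 2) m (m / 2 + 1) le_rfl, sum_range_succ' _ (m / 2)]
  simp only [w_zero, mul_zero, Nat.sub_zero, pow_zero, mul_one, one_mul, add_sub_cancel_right]
  apply dvd_sum
  intro j _
  obtain ⟨q, hq⟩ := two_dvd_central (j := j + 1) (by omega)
  unfold w
  rw [hq]
  refine ⟨(m.choose (2 * (j + 1)) : ℤ) * q * b ^ (m - 2 * (j + 1)) * (c * (c ^ 2) ^ j), ?_⟩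
  ring

lemma T_odd_dvd (b c : ℤ) (m : ℕ) (hm : Odd m) : b ∣ T b c m := by
  unfold T
  apply dvd_sum
  intro j hj
  rw [mem_range] at hj
  obtain ⟨t, ht⟩ := hm
  have : 1 ≤ m - 2 * j := by omega
  apply Dvd.dvd.mul_right
  apply Dvd.dvd.mul_left
  exact dvd_pow_self b (by omega)

/-- the closed form, divided -/
lemma closed' (b c : ℤ) (hb : b ≠ 0) (hc : c ≠ 0) (m : ℕ) : ∃ r x : ℤ,
    b * x = T b (c ^ 2) (m + 1) * T b (c ^ 2) m ∧
    S b c (m + 1) = 2 * c * (m + 1) ^ 2 * r ^ 2 + (m + 1) * (b + 2 * c) * x := by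
  obtain ⟨r, hr⟩ : (2 * c) ∣ T b (c ^ 2) (m + 1) - (b + 2 * c) * T b (c ^ 2) m := by
    obtain ⟨r1, h1⟩ := T_mod b c (m + 1)
    obtain ⟨r2, h2⟩ := T_mod b c m
    refine ⟨r1 - (b + 2 * c) * r2 - b ^ m, ?_⟩
    have h3 : b ^ (m + 1) = b ^ m * b := pow_succ b m
    linear_combination h1 - (b + 2 * c) * h2 + h3
  obtain ⟨x, hx⟩ : b ∣ T b (c ^ 2) (m + 1) * T b (c ^ 2) m := by
    rcases Nat.even_or_odd m with h | h
    · exact Dvd.dvd.mul_right (T_odd_dvd b _ _ (Even.add_one h)) _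
    · exact Dvd.dvd.mul_left (T_odd_dvd b _ _ h) _
  refine ⟨r, x, hx.symm, ?_⟩
  have h := closed b c m
  rw [hr, hx] at h
  have h2 : 2 * b * c ≠ 0 := mul_ne_zero (mul_ne_zero two_ne_zero hb) hc
  apply mul_left_cancel₀ h2
  linear_combination h

lemma S_congr (N : ℕ) {b b' c c' : ℤ} (hb : (b : ZMod N) = b') (hc : (c : ZMod N) = c') (n : ℕ) :
    ((S b c n : ℤ) : ZMod N) = ((S b' c' n : ℤ) : ZMod N) := by
  unfold S T
  push_cast
  rw [hb, hc]

lemma q1 (b c : ℤ) (n : ℕ) (hn : 1 ≤ n) : (n : ℤ) ∣ S b c n := by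
  obtain ⟨m, rfl⟩ := Nat.exists_eq_add_of_le' hn
  have key : ∀ b c : ℤ, b ≠ 0 → c ≠ 0 → ((m + 1 : ℕ) : ℤ) ∣ S b c (m + 1) := by
    intro b c hb hc
    obtain ⟨r, x, -, h⟩ := closed' b c hb hc m
    rw [h]
    refine ⟨2 * c * (m + 1) * r ^ 2 + (b + 2 * c) * x, ?_⟩
    push_cast
    ring
  have hne : ∀ b : ℤ, ∃ b' : ℤ, b' ≠ 0 ∧ (b : ZMod (m + 1)) = b' := by
    intro b
    by_cases hb : b = 0
    · refine ⟨((m + 1 : ℕ) : ℤ), by positivity, ?_⟩
      rw [hb, Int.cast_natCast, ZMod.natCast_self]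
      simp
    · exact ⟨b, hb, rfl⟩
  obtain ⟨b', hb', eb⟩ := hne b
  obtain ⟨c', hc', ec⟩ := hne c
  have h1 := key b' c' hb' hc'
  rw [← ZMod.intCast_zmod_eq_zero_iff_dvd] at h1 ⊢
  rw [S_congr (m + 1) eb ec]
  exact h1

section modp

variable (p : ℕ) [hp : Fact p.Prime]

lemma choose_sub_one (k : ℕ) (hk : k ≤ p - 1) : ((p - 1).choose k : ZMod p) = (-1) ^ k := by
  have hp2 := hp.out.two_le
  induction k with
  | zero => simp
  | succ k ih =>
    have h1 := ih (by omega)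
    have h2 : p.choose (k + 1) = (p - 1).choose k + (p - 1).choose (k + 1) := by
      have : p = (p - 1) + 1 := by omega
      conv_lhs => rw [this]
      rw [Nat.choose_succ_succ]
    have h3 : ((p.choose (k + 1) : ℕ) : ZMod p) = 0 :=
      (ZMod.natCast_eq_zero_iff _ _).2 (hp.out.dvd_choose_self (by omega) (by omega))
    rw [h2] at h3
    push_cast at h3
    rw [h1] at h3
    rw [pow_succ]
    linear_combination h3

lemma central_mod (hp2 : p ≠ 2) (j : ℕ) (hj : j ≤ p / 2) :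
    (((2 * j).choose j : ℕ) : ZMod p) = (-4) ^ j * (((p / 2).choose j : ℕ) : ZMod p) := by
  have hodd := hp.out.eq_two_or_odd.resolve_left hp2
  have hpp : 2 * (p / 2) + 1 = p := by omega
  induction j with
  | zero => simp
  | succ j ih =>
    have h1 := ih (by omega)
    have h2 : (((j + 1) * (2 * (j + 1)).choose (j + 1) : ℕ) : ZMod p) =
        ((2 * (2 * j + 1) * (2 * j).choose j : ℕ) : ZMod p) := by
      have := Nat.succ_mul_centralBinom_succ j
      simp only [Nat.centralBinom] at this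
      rw [this]
    have h3 : (((p / 2).choose (j + 1) * (j + 1) : ℕ) : ZMod p) =
        (((p / 2).choose j * (p / 2 - j) : ℕ) : ZMod p) := by
      rw [Nat.choose_succ_right_eq]
    have h4 : ((2 * (p / 2) + 1 : ℕ) : ZMod p) = 0 := by
      rw [hpp]
      exact ZMod.natCast_self p
    have hj1 : ((j + 1 : ℕ) : ZMod p) ≠ 0 := by
      intro h
      have := Nat.le_of_dvd (by omega) ((ZMod.natCast_eq_zero_iff _ _).1 h)
      omega
    push_cast [Nat.cast_sub (by omega : j ≤ p / 2)] at h2 h3 h4 hj1 ⊢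
    apply mul_left_cancel₀ hj1
    rw [h1] at h2
    rw [pow_succ]
    linear_combination h2 + (-4) ^ j * 4 * h3 + 2 * (-4) ^ j * ((p / 2).choose j : ZMod p) * h4

lemma T_pred (hp2 : p ≠ 2) (b c : ℤ) :
    ((T b c (p - 1) : ℤ) : ZMod p) = ((b ^ 2 - 4 * c : ℤ) : ZMod p) ^ (p / 2) := by
  have hodd := hp.out.eq_two_or_odd.resolve_left hp2
  have hpp : 2 * (p / 2) + 1 = p := by omega
  have hh : (p - 1) / 2 = p / 2 := by omega
  unfold T
  rw [hh]
  push_cast
  have h1 : (b : ZMod p) ^ 2 - 4 * c = (-4 * c) + (b : ZMod p) ^ 2 := by ring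
  rw [h1, add_pow]
  apply sum_congr rfl
  intro j hj
  rw [mem_range] at hj
  have h2 := choose_sub_one p (2 * j) (by omega)
  have h3 := central_mod p hp2 j (by omega)
  rw [h2, h3, pow_mul]
  have h4 : p - 1 - 2 * j = 2 * (p / 2 - j) := by omega
  rw [h4, pow_mul]
  simp only [even_two, Even.neg_pow, one_pow, one_mul]
  rw [mul_pow]
  ring

lemma T_self (b c : ℤ) : ((T b c p : ℤ) : ZMod p) = b := by
  rw [T_eq b c p (p / 2 + 1) le_rfl]
  push_cast
  rw [sum_range_succ', w_zero]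
  simp only [mul_zero, Nat.sub_zero, pow_zero, mul_one, Int.cast_one, one_mul]
  rw [ZMod.pow_card]
  have hp2 := hp.out.two_le
  have : ∑ j ∈ range (p / 2), ((w p (j + 1) : ℤ) : ZMod p) * (b : ZMod p) ^ (p - 2 * (j + 1)) *
      (c : ZMod p) ^ (j + 1) = 0 := by
    apply sum_eq_zero
    intro j hj
    rw [mem_range] at hj
    have hw : ((w p (j + 1) : ℤ) : ZMod p) = 0 := by
      unfold w
      push_cast
      by_cases h : 2 * (j + 1) = p
      · have : p = 2 := by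
          rcases hp.out.eq_one_or_self_of_dvd 2 ⟨j + 1, h.symm⟩ with h2 | h2
          · omega
          · exact h2.symm
        have hj0 : j = 0 := by omega
        subst hj0
        have h2 : (((2 * (0 + 1)).choose (0 + 1) : ℕ) : ZMod p) = 0 := by
          rw [ZMod.natCast_eq_zero_iff, this]
          norm_num
        rw [h2, mul_zero]
      · have h1 : ((p.choose (2 * (j + 1)) : ℕ) : ZMod p) = 0 :=
          (ZMod.natCast_eq_zero_iff _ _).2 (hp.out.dvd_choose_self (by omega) (by omega))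
        rw [h1, zero_mul]
    rw [hw]
    ring
  rw [this, zero_add]

lemma S_c_zero (b : ℤ) (n : ℕ) : S b 0 n = n * b ^ (2 * n - 1) := by
  have hT : ∀ j, T b (0 ^ 2) j = b ^ j := by
    intro j
    rw [T_eq b (0 ^ 2) j (j / 2 + 1) le_rfl, sum_range_succ', w_zero]
    simp
  unfold S
  rw [sum_congr rfl (g := fun _ => b ^ (2 * n - 1))]
  · simp
  · intro j hj
    rw [mem_range] at hj
    rw [hT, ← pow_mul]
    have : 2 * n - 1 = 1 + j * 2 + 2 * (n - 1 - j) := by omega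
    rw [this, pow_add, pow_add, pow_one]
    ring

/-- the integral form of Q2 -/
lemma q2 (hp2 : p ≠ 2) (b c : ℤ) (h : ¬ (p : ℤ) ∣ b * (b - 2 * c)) :
    (p : ℤ) ^ 2 ∣ S b c p -
      p * (b + 2 * c) * legendreSym p (b ^ 2 - 4 * c ^ 2) * (b - 2 * c) ^ (2 * (p - 1)) := by
  have hb : (b : ZMod p) ≠ 0 := by
    intro h1
    exact h (Dvd.dvd.mul_right ((ZMod.intCast_zmod_eq_zero_iff_dvd _ _).1 h1) _)
  have hu : ((b - 2 * c : ℤ) : ZMod p) ≠ 0 := by
    intro h1
    exact h (Dvd.dvd.mul_left ((ZMod.intCast_zmod_eq_zero_iff_dvd _ _).1 h1) _)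
  have hb0 : b ≠ 0 := by
    rintro rfl
    simp at hb
  have hp1 := hp.out.one_lt
  by_cases hc : c = 0
  · subst hc
    rw [S_c_zero]
    have h1 : legendreSym p (b ^ 2 - 4 * 0 ^ 2) = 1 := by
      have : b ^ 2 - 4 * 0 ^ 2 = b ^ 2 := by ring
      rw [this]
      exact legendreSym.sq_one' p hb
    rw [h1]
    have h2 : 2 * p - 1 = 1 + 2 * (p - 1) := by omega
    rw [h2, pow_add, pow_one]
    have h3 : (p : ℤ) * (b * b ^ (2 * (p - 1))) -
        p * (b + 2 * 0) * 1 * (b - 2 * 0) ^ (2 * (p - 1)) = 0 := by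
      rw [mul_zero, add_zero, sub_zero]
      ring
    rw [h3]
    exact dvd_zero _
  · obtain ⟨m, hm⟩ : ∃ m, p = m + 1 := ⟨p - 1, by omega⟩
    obtain ⟨r, x, hx, hS⟩ := closed' b c hb0 hc m
    have hm' : p - 1 = m := by omega
    have hx' : ((x : ℤ) : ZMod p) = ((legendreSym p (b ^ 2 - 4 * c ^ 2) : ℤ) : ZMod p) := by
      have e1 : ((b * x : ℤ) : ZMod p) = ((T b (c ^ 2) (m + 1) * T b (c ^ 2) m : ℤ) : ZMod p) := by
        rw [hx]
      push_cast at e1
      rw [← hm, T_self p b (c ^ 2)] at e1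
      have e2 := mul_left_cancel₀ hb e1
      rw [e2, ← hm', T_pred p hp2, legendreSym.eq_pow]
    have hpow : (((b - 2 * c) ^ (2 * (p - 1)) : ℤ) : ZMod p) = 1 := by
      push_cast
      rw [mul_comm 2 (p - 1), pow_mul]
      have := ZMod.pow_card_sub_one_eq_one hu
      push_cast at this
      rw [this, one_pow]
    obtain ⟨y, hy⟩ : (p : ℤ) ∣
        x - legendreSym p (b ^ 2 - 4 * c ^ 2) * (b - 2 * c) ^ (2 * (p - 1)) := by
      rw [← ZMod.intCast_zmod_eq_zero_iff_dvd]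
      push_cast at hpow ⊢
      rw [hx', hpow]
      ring
    have hpm : (p : ℤ) = m + 1 := by exact_mod_cast hm
    have hSp : S b c p = 2 * c * p ^ 2 * r ^ 2 + p * (b + 2 * c) * x := by
      have : S b c p = S b c (m + 1) := by rw [← hm]
      rw [this, hS, hpm]
    rw [hSp]
    refine ⟨2 * c * r ^ 2 + (b + 2 * c) * y, ?_⟩
    linear_combination (p : ℤ) * (b + 2 * c) * hy

end modp

/-- **Q1 and Q2.**
1. `n` divides `∑_{j<n} (8cj+4c+b) T_j(b,c²)² (b-2c)^(2(n-1-j))` for all integers `b, c` and `n ≥ 1`.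
2. For all integers `b, c` and odd primes `p` not dividing `b(b-2c)` the sum
`∑_{j<p} (8cj+4c+b) T_j(b,c²)²/(b-2c)^(2j)` and `p (b+2c) ((b²-4c²)/p)` differ by `p²` times a
rational number whose denominator is prime to `p`. -/
theorem result :
    (∀ (b c : ℤ) (n : ℕ), 1 ≤ n → (n : ℤ) ∣
      ∑ j ∈ range n, (8 * c * j + 4 * c + b) * T b (c ^ 2) j ^ 2 * (b - 2 * c) ^ (2 * (n - 1 - j))) ∧
    (∀ (b c : ℤ) (p : ℕ) [Fact p.Prime], p ≠ 2 → ¬ (p : ℤ) ∣ b * (b - 2 * c) →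
      ∃ u : ℚ, ¬ p ∣ u.den ∧
        ∑ j ∈ range p, (8 * (c : ℚ) * j + 4 * c + b) * (T b (c ^ 2) j : ℚ) ^ 2 /
            ((b : ℚ) - 2 * c) ^ (2 * j) -
          p * ((b : ℚ) + 2 * c) * (legendreSym p (b ^ 2 - 4 * c ^ 2) : ℚ) = (p : ℚ) ^ 2 * u) := by
  refine ⟨fun b c n hn => q1 b c n hn, ?_⟩
  intro b c p hp hp2 h
  obtain ⟨y, hy⟩ := q2 p hp2 b c h
  have hp' := hp.out
  set D : ℤ := (b - 2 * c) ^ (2 * (p - 1)) with hD
  have hu : ¬ (p : ℤ) ∣ b - 2 * c := fun h1 => h (Dvd.dvd.mul_left h1 _)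
  have hpD : ¬ (p : ℤ) ∣ D := fun h1 => hu ((Nat.prime_iff_prime_int.1 hp').dvd_of_dvd_pow h1)
  have hu0 : (b - 2 * c : ℤ) ≠ 0 := by
    intro h1
    rw [h1] at hu
    exact hu (dvd_zero _)
  have huq : ((b : ℚ) - 2 * c) ≠ 0 := by exact_mod_cast hu0
  refine ⟨(y : ℚ) / (D : ℚ), ?_, ?_⟩
  · intro h1
    apply hpD
    have h2 := Rat.den_dvd y D
    rw [Rat.divInt_eq_div] at h2
    exact (Int.natCast_dvd_natCast.2 h1).trans h2
  · have hDq : (D : ℚ) = ((b : ℚ) - 2 * c) ^ (2 * (p - 1)) := by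
      rw [hD]
      push_cast
      ring
    have hD0 : (D : ℚ) ≠ 0 := by
      rw [hDq]
      exact pow_ne_zero _ huq
    have hsum : ∑ j ∈ range p, (8 * (c : ℚ) * j + 4 * c + b) * (T b (c ^ 2) j : ℚ) ^ 2 /
        ((b : ℚ) - 2 * c) ^ (2 * j) = (S b c p : ℚ) / D := by
      rw [eq_div_iff hD0, sum_mul, hDq]
      unfold S
      push_cast
      apply sum_congr rfl
      intro j hj
      rw [mem_range] at hj
      have e : 2 * (p - 1) = 2 * j + 2 * (p - 1 - j) := by omega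
      rw [e, pow_add]
      generalize (b : ℚ) - 2 * c = q at huq
      have hq1 : q ^ (2 * j) ≠ 0 := pow_ne_zero _ huq
      rw [div_mul_eq_mul_div, div_eq_iff hq1]
      ring
    rw [hsum]
    have hyq : (S b c p : ℚ) - p * (b + 2 * c) * (legendreSym p (b ^ 2 - 4 * c ^ 2) : ℚ) * D =
        (p : ℚ) ^ 2 * y := by exact_mod_cast hy
    field_simp
    linear_combination hyq

end Pool.Agent.Results.MP_bba144_nt.Full
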